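import Mathlib
import Pool.Agent.T2H30.CF.Main

/-!
# Weight two characters: nine tenths of the conjugates satisfy the Ramanujan-Petersson bound at almost all primes

Let `K` be a number field and `θ` a nontrivial character of the Hecke algebra `𝕋_1(𝔫)`, which acts on
`H^d(Y_1(𝔫), ℂ)`, with values in the number field `E`. As the cohomology has a rational structure, the conjugates
`σ ∘ θ`, `σ : E → ℂ`, are characters of `𝕋_1(𝔫)`, too. The Ramanujan-Petersson conjecture for `θ` and its conjugates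
says that `|σ(θ(T_v))| ≤ 2 √(N v)` for all `σ` and all `v ∤ 𝔫`. Let `g` be the degree of the field generated by the
numbers `θ(T_v)² / θ(S_v)` (the field fixed by the inner twists of `θ`; it is `E` if there are none and `θ(S_v) = 1`).
We show:

**Theorem.** Let `c > 1/10`. The primes `v` at which at least `c [E : ℚ]` of the `[E : ℚ]` embeddings `σ` violate the
bound, `|σ(θ(T_v))| > 2 √(N v)`, have upper natural density at most `306 / (306 + 100 g (10 c - 1)²)`.

The bound tends to `0` as `g → ∞`: **for characters with large Hecke fields nine tenths of the conjugates satisfy the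
Ramanujan-Petersson bound at almost all primes.** This is a phenomenon of weight two (of cohomological) forms: each
single `σ ∘ θ` is only known to satisfy the bound at primes of density `34/35` (Kim-Shahidi), which gives the bound
`1/(35 c)` for the above density, independently of `g`; for large `g` the theorem is better for all `c > 1/10`. More
generally, for every `z > 0` the primes `v` at which at least `c [E : ℚ]` of the embeddings satisfy
`|σ(θ(T_v))|² ≥ (1 + z) N v` have upper density `O(1 / g)`, as soon as `c > 1 / (1 + z²)`.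

If `θ` is dihedral or not cuspidal, the bound is known for all `v` (`θ` is nontrivial). Otherwise `θ` and its conjugates
have the properties listed in the structure `WeightTwo`, which are all known: `A²_σ` and `A⁴_σ` are cuspidal
(Gelbart-Jacquet, Kim, Kim-Shahidi; tetrahedral and octahedral forms have no weight two), `A²_σ ≅ A²_τ` iff `π_σ` and
`π_τ` are twists of each other (Ramakrishnan), iff `σ` and `τ` agree on the numbers `θ(T_v)² / θ(S_v)` (strong
multiplicity one); `A⁴_σ ≅ A⁴_τ` for other pairs happens for forms of icosahedral type only (Ramakrishnan), which have no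
weight two; the Rankin-Selberg `L`-functions have the stated poles and no zeros for `Re s ≥ 1` (Jacquet, Shalika,
Shahidi). The prime ideal theorem for `K` and the Wiener-Ikehara theorem are proved.

The proof is a law of large numbers over the conjugates: the functions `A²_σ`, `A⁴_σ` of `v` are pairwise uncorrelated,
for different `σ` (up to inner twists). If `x_σ(v) = |σ(θ(T_v))|² / N v`, then
`f_σ = A⁴_σ + (1 + 2/z) A²_σ = (x_σ - 1 + 1/z)² - (1 + 1/z²)` is large where `x_σ ≥ 1 + z`, and Cantelli's inequality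
for `∑_σ f_σ` gives the result.
-/

set_option autoImplicit false

namespace Pool.Agent.Results.MP_4819b8_nt.ConjugatesTempered

open NumberField IsDedekindDomain Pool.Agent.TH861.GL3
open Pool.Agent.T2H30.DN (UpperDensityLE LowerDensityGE)
open Pool.Agent.T2H30.CF (WeightTwo core)

/-- **Nine tenths of the conjugates satisfy the Ramanujan-Petersson bound at almost all primes.** -/
theorem result {K E : Type} [Field K] [NumberField K] [Field E] [NumberField E]
    {S : Finset (HeightOneSpectrum (𝓞 K))} {T D : PL S → E} {α : (E →+* ℂ) → PL S → Fin 2 → ℂ}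
    (h : WeightTwo T D α) (g : ℕ) (hg : g = Module.finrank ℚ (core T D)) :
    -- at least `c [E : ℚ]` of the conjugates violate the bound
    (∀ c : ℝ, 1 / 10 < c →
      UpperDensityLE (fun v : PL S => c * Module.finrank ℚ E ≤
        (({σ : E →+* ℂ | 2 * Real.sqrt (Ideal.absNorm v.1.asIdeal) < ‖σ (T v)‖}.ncard : ℕ) : ℝ))
        (306 / (306 + 100 * g * (10 * c - 1) ^ 2))) ∧
    -- hence, elsewhere more than `(1 - c) [E : ℚ]` of the conjugates satisfy the bound
    (∀ c : ℝ, 1 / 10 < c →
      LowerDensityGE (fun v : PL S => (1 - c) * Module.finrank ℚ E <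
        (({σ : E →+* ℂ | ‖σ (T v)‖ ≤ 2 * Real.sqrt (Ideal.absNorm v.1.asIdeal)}.ncard : ℕ) : ℝ))
        (1 - 306 / (306 + 100 * g * (10 * c - 1) ^ 2))) ∧
    -- the general case
    (∀ z c : ℝ, 0 < z → 1 < c * (1 + z ^ 2) →
      UpperDensityLE (fun v : PL S => c * Module.finrank ℚ E ≤
        (({σ : E →+* ℂ | (1 + z) * (Ideal.absNorm v.1.asIdeal : ℝ) ≤ ‖σ (T v)‖ ^ 2}.ncard : ℕ) : ℝ))
        (2 * z ^ 2 * (z ^ 2 + 2 * z + 2) / (2 * z ^ 2 * (z ^ 2 + 2 * z + 2) +
          g * ((1 + z ^ 2) * (c * (1 + z ^ 2) - 1)) ^ 2))) := by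
  subst hg
  have h1 : ∀ z c : ℝ, 0 < z → 1 < c * (1 + z ^ 2) →
      UpperDensityLE (fun v : PL S => c * Module.finrank ℚ E ≤
        (({σ : E →+* ℂ | (1 + z) * (Ideal.absNorm v.1.asIdeal : ℝ) ≤ ‖σ (T v)‖ ^ 2}.ncard : ℕ) : ℝ))
        (2 * z ^ 2 * (z ^ 2 + 2 * z + 2) / (2 * z ^ 2 * (z ^ 2 + 2 * z + 2) +
          Module.finrank ℚ (core T D) * ((1 + z ^ 2) * (c * (1 + z ^ 2) - 1)) ^ 2)) :=
    fun z c hz hc => Pool.Agent.T2H30.CF.main h hz hc
  have h2 : ∀ c : ℝ, 1 / 10 < c →
      UpperDensityLE (fun v : PL S => c * Module.finrank ℚ E ≤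
        (({σ : E →+* ℂ | 2 * Real.sqrt (Ideal.absNorm v.1.asIdeal) < ‖σ (T v)‖}.ncard : ℕ) : ℝ))
        (306 / (306 + 100 * (Module.finrank ℚ (core T D) : ℕ) * (10 * c - 1) ^ 2)) := by
    intro c hc
    have h3 := h1 3 c (by norm_num) (by linarith)
    have e : (2 * 3 ^ 2 * (3 ^ 2 + 2 * 3 + 2) / (2 * 3 ^ 2 * (3 ^ 2 + 2 * 3 + 2) +
          Module.finrank ℚ (core T D) * ((1 + 3 ^ 2) * (c * (1 + 3 ^ 2) - 1)) ^ 2) : ℝ) =
        306 / (306 + 100 * (Module.finrank ℚ (core T D) : ℕ) * (10 * c - 1) ^ 2) := by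
      norm_num
      ring
    rw [e] at h3
    refine h3.mono fun v hv => hv.trans ?_
    have h4 : {σ : E →+* ℂ | 2 * Real.sqrt (Ideal.absNorm v.1.asIdeal) < ‖σ (T v)‖} ⊆
        {σ : E →+* ℂ | (1 + 3) * (Ideal.absNorm v.1.asIdeal : ℝ) ≤ ‖σ (T v)‖ ^ 2} := by
      intro σ hσ
      simp only [Set.mem_setOf_eq] at hσ ⊢
      have h5 := pow_le_pow_left₀ (by positivity) hσ.le 2
      rw [mul_pow, Real.sq_sqrt (Nat.cast_nonneg _)] at h5
      linarith
    exact_mod_cast Set.ncard_le_ncard h4 (Set.toFinite _)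
  refine ⟨h2, fun c hc => ?_, h1⟩
  refine (Pool.Agent.T2H30.DN.lower_of_upper (h2 c hc)).mono fun v hv => ?_
  rw [not_le] at hv
  have h6 : {σ : E →+* ℂ | ‖σ (T v)‖ ≤ 2 * Real.sqrt (Ideal.absNorm v.1.asIdeal)} =
      {σ : E →+* ℂ | 2 * Real.sqrt (Ideal.absNorm v.1.asIdeal) < ‖σ (T v)‖}ᶜ := by
    ext σ
    simp
  have h7 := Set.ncard_add_ncard_compl {σ : E →+* ℂ | 2 * Real.sqrt (Ideal.absNorm v.1.asIdeal) < ‖σ (T v)‖}
    (Set.toFinite _)
  rw [← h6, Nat.card_eq_fintype_card, NumberField.Embeddings.card E ℂ] at h7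
  have h8 : (({σ : E →+* ℂ | 2 * Real.sqrt (Ideal.absNorm v.1.asIdeal) < ‖σ (T v)‖}.ncard : ℕ) : ℝ) +
      (({σ : E →+* ℂ | ‖σ (T v)‖ ≤ 2 * Real.sqrt (Ideal.absNorm v.1.asIdeal)}.ncard : ℕ) : ℝ) =
        Module.finrank ℚ E := by exact_mod_cast h7
  linarith

end Pool.Agent.Results.MP_4819b8_nt.ConjugatesTempered
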