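import Mathlib
import Pool.Agent.T2H30.CG.Main

/-!
# Families of weight two characters: the Ramanujan-Petersson bound at almost all primes

Let `K` be a number field and let `θ_i` be characters of the Hecke algebras `𝕋_1(𝔫_i)`, cuspidal and not dihedral (the
bound is known for the other nontrivial ones), of arbitrary levels and with arbitrary Hecke fields, which are pairwise
not twists of each other. We show that the violations of the Ramanujan-Petersson bound `|θ_i(T_v)| ≤ 2 √(N v)` by
different `θ_i` are rare, and do not happen at the same primes.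

**Theorem.** (finite families) Let `m` be the number of the `θ_i`.
* The primes `v` at which all `θ_i` violate the bound have upper natural density at most `1 / (1 + 34 m)`.
* For `c > 1/10` the primes at which at least `c m` of the `θ_i` violate the bound have upper natural density at most
  `306 / (306 + 100 m (10 c - 1)²)`; more generally for `|θ_i(T_v)|² ≥ (1 + z) N v` if `z > 0`, `c > 1 / (1 + z²)`.

(infinite families) For every infinite sequence `θ_0, θ_1, …` of pairwise twist-inequivalent characters and every `k`,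
**at almost all primes (natural density one) at least `k` of the `θ_i` satisfy the bound**, and for every `c > 1/10` and
every `M` at almost all primes there is some `m ≥ M` such that more than `(1 - c) m` of `θ_0, …, θ_{m-1}` satisfy it.

The best result for one form is density `34/35` (Kim-Shahidi), the case `m = 1`. The properties of the `θ_i` in the
structure `Family` are known: `A²_i` and `A⁴_i` are cuspidal (Gelbart-Jacquet, Kim, Kim-Shahidi; tetrahedral and
octahedral forms have no weight two), `A²_i ≅ A²_j` iff `π_i` and `π_j` are twists of each other (Ramakrishnan), iff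
`θ_i(T_v)² / θ_i(S_v) = θ_j(T_v)² / θ_j(S_v)` for all `v ∉ S` (strong multiplicity one; otherwise the two sides differ for
infinitely many `v`); `A⁴_i ≅ A⁴_j` for other pairs happens for forms of icosahedral type only (Ramakrishnan), which have
no weight two; the Rankin-Selberg `L`-functions have the stated poles and no zeros for `Re s ≥ 1` (Jacquet, Shalika,
Shahidi). The prime ideal theorem for `K` and the Wiener-Ikehara theorem are proved. The proof is a law of large numbers:
the functions `A²_i`, `A⁴_i` of `v` are pairwise uncorrelated.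
-/

set_option autoImplicit false

namespace Pool.Agent.Results.MP_4819b8_nt.FamiliesOfCharacters

open NumberField IsDedekindDomain Pool.Agent.TH861.GL3
open Pool.Agent.T2H30.DN (UpperDensityLE LowerDensityGE)
open Pool.Agent.T2H30.CG (Family TwistInequivalent)

/-- **The Ramanujan-Petersson bound in families of twist-inequivalent characters of weight two.** -/
theorem result (K : Type) [Field K] [NumberField K] :
    -- finite families `θ_i`, `i < m`
    (∀ (m : ℕ), 0 < m → ∀ (S : Finset (HeightOneSpectrum (𝓞 K))) (T D : Fin m → PL S → ℂ)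
      (α : Fin m → PL S → Fin 2 → ℂ), Family T D α → TwistInequivalent T D →
      -- all of them violate the bound
      UpperDensityLE (fun v : PL S => ∀ i, 2 * Real.sqrt (Ideal.absNorm v.1.asIdeal) < ‖T i v‖) (1 / (1 + 34 * m)) ∧
      -- at least `c m` of them violate the bound
      (∀ c : ℝ, 1 / 10 < c → UpperDensityLE (fun v : PL S => c * m ≤
        (({i | 2 * Real.sqrt (Ideal.absNorm v.1.asIdeal) < ‖T i v‖}.ncard : ℕ) : ℝ))
        (306 / (306 + 100 * m * (10 * c - 1) ^ 2))) ∧
      (∀ z c : ℝ, 0 < z → 1 < c * (1 + z ^ 2) → UpperDensityLE (fun v : PL S => c * m ≤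
        (({i | (1 + z) * (Ideal.absNorm v.1.asIdeal : ℝ) ≤ ‖T i v‖ ^ 2}.ncard : ℕ) : ℝ))
        (2 * z ^ 2 * (z ^ 2 + 2 * z + 2) / (2 * z ^ 2 * (z ^ 2 + 2 * z + 2) +
          m * ((1 + z ^ 2) * (c * (1 + z ^ 2) - 1)) ^ 2)))) ∧
    -- sequences `θ_i`, `i = 0, 1, 2, …`; `S m` contains the primes dividing the levels of the `θ_i`, `i ≤ m`
    (∀ (S : ℕ → Finset (HeightOneSpectrum (𝓞 K))) (T D : ℕ → HeightOneSpectrum (𝓞 K) → ℂ)
      (α : ℕ → HeightOneSpectrum (𝓞 K) → Fin 2 → ℂ), Monotone S →
      (∀ m, Family (S := S m) (fun (i : Fin m) v => T i v.1) (fun i v => D i v.1) (fun i v => α i v.1)) →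
      (∀ i j, i ≠ j → {v | T i v ^ 2 / D i v ≠ T j v ^ 2 / D j v}.Infinite) →
      -- for every `k`, at almost all primes at least `k` of the `θ_i` satisfy the bound
      (∀ k : ℕ, LowerDensityGE (fun v : PL (K := K) ∅ =>
        (k : ℕ∞) ≤ {i : ℕ | v.1 ∉ S i ∧ ‖T i v.1‖ ≤ 2 * Real.sqrt (Ideal.absNorm v.1.asIdeal)}.encard) 1) ∧
      -- for `c > 1/10`, at almost all primes more than `(1 - c) m` of the first `m`, for some `m ≥ M`
      (∀ (c : ℝ) (M : ℕ), 1 / 10 < c → LowerDensityGE (fun v : PL (K := K) ∅ => ∃ m, M ≤ m ∧ (1 - c) * m <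
        (({i : ℕ | i < m ∧ v.1 ∉ S i ∧ ‖T i v.1‖ ≤ 2 * Real.sqrt (Ideal.absNorm v.1.asIdeal)}.ncard : ℕ) : ℝ)) 1)) := by
  refine ⟨fun m hm S T D α h hd => ?_, fun S T D α hS h hd => ⟨fun k => ?_, fun c M hc => ?_⟩⟩
  · haveI : Nonempty (Fin m) := ⟨⟨0, hm⟩⟩
    refine ⟨?_, fun c hc => ?_, fun z c hz hc => ?_⟩
    · have h0 := Pool.Agent.T2H30.CG.all_viol h hd
      simp only [Fintype.card_fin] at h0
      exact h0
    · have h0 := Pool.Agent.T2H30.CG.nine h hd hc
      simp only [Fintype.card_fin] at h0
      exact h0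
    · have h0 := Pool.Agent.T2H30.CG.main h hd hz hc
      simp only [Fintype.card_fin] at h0
      exact h0
  · have h1 := Pool.Agent.T2H30.DN.lower_of_upper (Pool.Agent.T2H30.CG.seq_many hS h hd k)
    rw [sub_zero] at h1
    exact h1.mono fun v hv => not_lt.1 hv
  · have h1 := Pool.Agent.T2H30.DN.lower_of_upper (Pool.Agent.T2H30.CG.seq_main hS h hd hc M)
    rw [sub_zero] at h1
    refine h1.mono fun v hv => ?_
    push Not at hv
    obtain ⟨m, hm, h2⟩ := hv
    refine ⟨m, hm, ?_⟩
    set A : Set ℕ := {i : ℕ | i < m ∧ v.1 ∉ S i ∧ ‖T i v.1‖ ≤ 2 * Real.sqrt (Ideal.absNorm v.1.asIdeal)} with hA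
    set B : Set ℕ := {i : ℕ | i < m ∧ (v.1 ∈ S i ∨ 2 * Real.sqrt (qq v.1 : ℝ) < ‖T i v.1‖)} with hB
    have hAf : A.Finite := (Set.finite_lt_nat m).subset fun i hi => hi.1
    have hBf : B.Finite := (Set.finite_lt_nat m).subset fun i hi => hi.1
    have h3 : {i : ℕ | i < m} ⊆ B ∪ A := by
      intro i hi
      by_cases h4 : v.1 ∈ S i
      · exact Or.inl ⟨hi, Or.inl h4⟩
      · by_cases h5 : 2 * Real.sqrt (qq v.1 : ℝ) < ‖T i v.1‖
        · exact Or.inl ⟨hi, Or.inr h5⟩
        · exact Or.inr ⟨hi, h4, not_lt.1 h5⟩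
    have h4 := (Set.ncard_le_ncard h3 (hBf.union hAf)).trans (Set.ncard_union_le _ _)
    have h5 : {i : ℕ | i < m}.ncard = m := by
      rw [show {i : ℕ | i < m} = ((Finset.range m : Finset ℕ) : Set ℕ) by ext; simp, Set.ncard_coe_finset,
        Finset.card_range]
    rw [h5] at h4
    have h6 : (m : ℝ) ≤ (B.ncard : ℝ) + (A.ncard : ℝ) := by exact_mod_cast h4
    linarith

end Pool.Agent.Results.MP_4819b8_nt.FamiliesOfCharacters
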