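import Mathlib
import Pool.Agent.T2H30.CF.Mean

/-!
# Weight two characters: the means over the conjugates satisfy more than the Ramanujan-Petersson bound

Let `K` be a number field and `θ` a nontrivial character of the Hecke algebra `𝕋_1(𝔫)`, which acts on
`H^d(Y_1(𝔫), ℂ)`, with values in the number field `E` of degree `n`; the conjugates `σ ∘ θ`, `σ : E → ℂ`, are characters
of `𝕋_1(𝔫)`, too. Let `g` be the degree of the field generated by the numbers `β_v = θ(T_v)² / θ(S_v)` (the field fixed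
by the inner twists of `θ`). Here `σ(β_v) = |σ(θ(T_v))|²`, so the Ramanujan-Petersson bound for all the conjugates says
that `β_v` has all its conjugates in `[0, 4 N v]`, and it implies `Tr β_v ≤ 4 n N v` and `Tr β_v² ≤ 16 n (N v)²`. We
show, for every `ε > 0`:

**Theorem.** The primes `v` with `|Tr β_v - n N v| ≥ ε n N v` have upper natural density at most `1 / (g ε²)`, and those
with `|Tr β_v² - 2 n (N v)²| ≥ ε n (N v)²` at most `10 / (g ε²)`.

So, **as the Hecke field grows, at almost all primes the mean of `|σ(θ(T_v))|²` over the conjugates is `(1 + o(1)) N v`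
and the mean of `|σ(θ(T_v))|⁴` is `(2 + o(1)) (N v)²`**, the values of the Sato-Tate measure, although the bound is not
known for any of the conjugates. More generally, the mean of `c₀ + c₁ x_σ + c₂ x_σ²`, where `x_σ = |σ(θ(T_v))|² / N v`,
differs from `c₀ + c₁ + 2 c₂` by at least `ε` only at primes of upper density at most
`((c₁ + 3 c₂)² + c₂²) / (g ε²)`.

A consequence is a bound for the total excess of the conjugates over the Ramanujan-Petersson bound (which is zero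
if the conjecture is true): for `ε > 0` we have
`(1/n) ∑_σ max(0, |σ(θ(T_v))|² - 4 N v) < ((√10 - 3)/2 + ε) N v` outside a set of primes of upper density at most
`1 / (1 + 58 g ε²)`. For example, **the mean excess is less than `N v / 10` at primes of lower density at least
`1 - 49 / (49 + g)`**. (The count of the conjugates which violate the bound says nothing about the size of the excess,
and single forms give a mean excess which does not tend to such a bound.) Similarly for the excess over `(1 + z) N v`,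
`z > 0`, with `(√(1 + z²) - z)/2` in place of `(√10 - 3)/2`.

If `θ` is dihedral or not cuspidal, the bound is known for all `v` (`θ` is nontrivial). Otherwise `θ` and its conjugates
have the properties listed in the structure `WeightTwo`, which are all known: `A²_σ` and `A⁴_σ` are cuspidal
(Gelbart-Jacquet, Kim, Kim-Shahidi; tetrahedral and octahedral forms have no weight two), `A²_σ ≅ A²_τ` iff `π_σ` and
`π_τ` are twists of each other (Ramakrishnan), iff `σ` and `τ` agree on the numbers `β_v` (strong multiplicity one);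
`A⁴_σ ≅ A⁴_τ` for other pairs happens for forms of icosahedral type only (Ramakrishnan), which have no weight two; the
Rankin-Selberg `L`-functions have the stated poles and no zeros for `Re s ≥ 1` (Jacquet, Shalika, Shahidi). The prime
ideal theorem for `K` and the Wiener-Ikehara theorem are proved.

The proof: `x_σ = 1 + A²_σ`, `x_σ² = 2 + 3 A²_σ + A⁴_σ`, and the functions `A²_σ`, `A⁴_σ` of `v` have mean zero, variance
one and are pairwise uncorrelated for different `σ` (up to inner twists). For the excess,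
`max(0, x - 1 - z) ≤ (x - 1 - z + r)² / (4 r)`, `r = √(1 + z²)`, a quadratic polynomial.
-/

set_option autoImplicit false

namespace Pool.Agent.Results.MP_4819b8_nt.MeansOverConjugates

open NumberField IsDedekindDomain Pool.Agent.TH861.GL3
open Pool.Agent.T2H30.DN (UpperDensityLE LowerDensityGE)
open Pool.Agent.T2H30.CF (WeightTwo core)

theorem weaken {K : Type} [Field K] [NumberField K] {S : Finset (HeightOneSpectrum (𝓞 K))} {Q : PL S → Prop}
    {δ δ' : ℝ} (h : UpperDensityLE Q δ') (hδ : δ' ≤ δ) : UpperDensityLE Q δ :=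
  Pool.Agent.T2H30.CF.upper_closed fun ε hε => ⟨δ', by linarith, h⟩

/-- **The means over the conjugates at almost all primes, if the Hecke field is large.** -/
theorem result {K E : Type} [Field K] [NumberField K] [Field E] [NumberField E]
    {S : Finset (HeightOneSpectrum (𝓞 K))} {T D : PL S → E} {α : (E →+* ℂ) → PL S → Fin 2 → ℂ}
    (h : WeightTwo T D α) (n g : ℕ) (hn : n = Module.finrank ℚ E) (hg : g = Module.finrank ℚ (core T D))
    (N : PL S → ℕ) (hN : ∀ v, N v = Ideal.absNorm v.1.asIdeal)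
    (β : PL S → E) (hβ : ∀ v, β v = T v ^ 2 / D v) :
    -- the conjugates of `β_v`
    (∀ v (σ : E →+* ℂ), σ (β v) = ((‖σ (T v)‖ ^ 2 : ℝ) : ℂ)) ∧
    -- the mean of `|σ(θ(T_v))|²` over the conjugates
    (∀ ε : ℝ, 0 < ε → UpperDensityLE (fun v : PL S =>
      ε * (n * N v) ≤ |((Algebra.trace ℚ E (β v) : ℚ) : ℝ) - n * N v|) (1 / (g * ε ^ 2))) ∧
    -- the mean of `|σ(θ(T_v))|⁴` over the conjugates
    (∀ ε : ℝ, 0 < ε → UpperDensityLE (fun v : PL S =>
      ε * (n * N v ^ 2) ≤ |((Algebra.trace ℚ E (β v ^ 2) : ℚ) : ℝ) - 2 * (n * N v ^ 2)|) (10 / (g * ε ^ 2))) ∧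
    -- quadratic polynomials
    (∀ c₀ c₁ c₂ ε : ℝ, 0 < ε → UpperDensityLE (fun v : PL S =>
      ε ≤ |(∑ σ : E →+* ℂ, (c₀ + c₁ * (‖σ (T v)‖ ^ 2 / N v) + c₂ * (‖σ (T v)‖ ^ 2 / N v) ^ 2)) / n -
        (c₀ + c₁ + 2 * c₂)|) (((c₁ + 3 * c₂) ^ 2 + c₂ ^ 2) / (g * ε ^ 2))) ∧
    -- the excess over the Ramanujan-Petersson bound
    (∀ ε : ℝ, 0 < ε → UpperDensityLE (fun v : PL S =>
      ((Real.sqrt 10 - 3) / 2 + ε) * (n * N v) ≤ ∑ σ : E →+* ℂ, max 0 (‖σ (T v)‖ ^ 2 - 4 * N v))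
      (1 / (1 + 58 * g * ε ^ 2))) ∧
    LowerDensityGE (fun v : PL S => ∑ σ : E →+* ℂ, max 0 (‖σ (T v)‖ ^ 2 - 4 * N v) < (n * N v / 10 : ℝ))
      (1 - 49 / (49 + g)) ∧
    -- the excess over `(1 + z) N v`
    (∀ z ε : ℝ, 0 < z → 0 < ε → UpperDensityLE (fun v : PL S =>
      ((Real.sqrt (1 + z ^ 2) - z) / 2 + ε) * (n * N v) ≤
        ∑ σ : E →+* ℂ, max 0 (‖σ (T v)‖ ^ 2 - (1 + z) * N v))
      ((1 + (2 * (Real.sqrt (1 + z ^ 2) - z) + 1) ^ 2) / ((1 + (2 * (Real.sqrt (1 + z ^ 2) - z) + 1) ^ 2) +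
        16 * (1 + z ^ 2) * g * ε ^ 2))) := by
  obtain rfl : N = fun v => qq v.1 := funext hN
  obtain rfl : β = fun v => T v ^ 2 / D v := funext hβ
  subst hn hg
  have hn0 : (0 : ℝ) < Module.finrank ℚ E := by
    have : 0 < Module.finrank ℚ E := Module.finrank_pos
    exact_mod_cast this
  have hg0 : (0 : ℝ) < Module.finrank ℚ (core T D) := by
    have : 0 < Module.finrank ℚ (core T D) := Module.finrank_pos
    exact_mod_cast this
  have hq : ∀ v : PL S, (0 : ℝ) < qq v.1 := fun v => by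
    have := two_le_qq v.1
    positivity
  have hx : ∀ (v : PL S) (σ : E →+* ℂ), ‖σ (T v)‖ ^ 2 / (qq v.1 : ℝ) = Pool.Agent.T2H30.CF.xx α σ v := by
    intro v σ
    rw [Pool.Agent.T2H30.CF.norm_T h, mul_div_cancel_right₀ _ (hq v).ne']
  -- the quadratic polynomials
  have hpoly : ∀ c₀ c₁ c₂ ε : ℝ, 0 < ε → UpperDensityLE (fun v : PL S =>
      ε ≤ |(∑ σ : E →+* ℂ, (c₀ + c₁ * (‖σ (T v)‖ ^ 2 / (qq v.1 : ℕ)) +
        c₂ * (‖σ (T v)‖ ^ 2 / (qq v.1 : ℕ)) ^ 2)) / (Module.finrank ℚ E : ℕ) - (c₀ + c₁ + 2 * c₂)|)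
      (((c₁ + 3 * c₂) ^ 2 + c₂ ^ 2) / ((Module.finrank ℚ (core T D) : ℕ) * ε ^ 2)) := by
    intro c₀ c₁ c₂ ε hε
    refine (Pool.Agent.T2H30.CF.mean_poly h c₀ c₁ c₂ hε).mono fun v hv => ?_
    simp_rw [hx] at hv
    have e : (∑ σ : E →+* ℂ, (c₀ + c₁ * Pool.Agent.T2H30.CF.xx α σ v + c₂ * Pool.Agent.T2H30.CF.xx α σ v ^ 2)) /
        (Module.finrank ℚ E : ℝ) - (c₀ + c₁ + 2 * c₂) =
        (∑ σ : E →+* ℂ, (c₀ + c₁ * Pool.Agent.T2H30.CF.xx α σ v + c₂ * Pool.Agent.T2H30.CF.xx α σ v ^ 2) -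
          (c₀ + c₁ + 2 * c₂) * Module.finrank ℚ E) / Module.finrank ℚ E := by
      rw [sub_div, mul_div_cancel_right₀ _ hn0.ne']
    rw [e, abs_div, abs_of_pos hn0, le_div_iff₀ hn0] at hv
    exact hv
  -- the excess
  have hexc : ∀ z ε : ℝ, 0 < z → 0 < ε → UpperDensityLE (fun v : PL S =>
      ((Real.sqrt (1 + z ^ 2) - z) / 2 + ε) * ((Module.finrank ℚ E : ℕ) * (qq v.1 : ℕ)) ≤
        ∑ σ : E →+* ℂ, max 0 (‖σ (T v)‖ ^ 2 - (1 + z) * (qq v.1 : ℕ)))
      ((1 + (2 * (Real.sqrt (1 + z ^ 2) - z) + 1) ^ 2) / ((1 + (2 * (Real.sqrt (1 + z ^ 2) - z) + 1) ^ 2) +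
        16 * (1 + z ^ 2) * (Module.finrank ℚ (core T D) : ℕ) * ε ^ 2)) := by
    intro z ε hz hε
    refine (Pool.Agent.T2H30.CF.excess h hz hε).mono fun v hv => ?_
    have e1 : ∀ σ : E →+* ℂ, max 0 (‖σ (T v)‖ ^ 2 - (1 + z) * (qq v.1 : ℝ)) =
        max 0 (Pool.Agent.T2H30.CF.xx α σ v - (1 + z)) * (qq v.1 : ℝ) := by
      intro σ
      rw [Pool.Agent.T2H30.CF.norm_T h, max_mul_of_nonneg _ _ (hq v).le, zero_mul, sub_mul]
    simp_rw [e1] at hv
    rw [← Finset.sum_mul, ← mul_assoc] at hv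
    exact le_of_mul_le_mul_right hv (hq v)
  have hs1 : Real.sqrt 10 ≤ 3.16228 := by
    rw [Real.sqrt_le_left (by norm_num)]
    norm_num
  have hs2 : (3668 / 1160 : ℝ) ≤ Real.sqrt 10 := by
    apply Real.le_sqrt_of_sq_le
    norm_num
  have hrp : ∀ ε : ℝ, 0 < ε → UpperDensityLE (fun v : PL S =>
      ((Real.sqrt 10 - 3) / 2 + ε) * ((Module.finrank ℚ E : ℕ) * (qq v.1 : ℕ)) ≤
        ∑ σ : E →+* ℂ, max 0 (‖σ (T v)‖ ^ 2 - 4 * (qq v.1 : ℕ)))
      (1 / (1 + 58 * (Module.finrank ℚ (core T D) : ℕ) * ε ^ 2)) := by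
    intro ε hε
    have h1 := hexc 3 ε (by norm_num) hε
    have e1 : (1 + 3 ^ 2 : ℝ) = 10 := by norm_num
    have e2 : (1 + 3 : ℝ) = 4 := by norm_num
    rw [e1, e2] at h1
    refine weaken h1 ?_
    have h2 : Real.sqrt 10 ^ 2 = 10 := Real.sq_sqrt (by norm_num)
    have h3 : (1 + (2 * (Real.sqrt 10 - 3) + 1) ^ 2 : ℝ) = 66 - 20 * Real.sqrt 10 := by
      nlinarith
    rw [h3]
    have h4 : (0 : ℝ) < 66 - 20 * Real.sqrt 10 := by linarith
    have h5 : (0 : ℝ) < (Module.finrank ℚ (core T D) : ℝ) * ε ^ 2 := by positivity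
    rw [div_le_div_iff₀ (by nlinarith) (by nlinarith)]
    nlinarith
  refine ⟨fun v σ => ?_, fun ε hε => ?_, fun ε hε => ?_, hpoly, hrp, ?_, hexc⟩
  · rw [Pool.Agent.T2H30.CF.map_beta h, Pool.Agent.T2H30.CF.norm_T h, mul_comm]
  · have h1 := Pool.Agent.T2H30.CF.mean_poly h 0 1 0 hε
    have e : ((1 + 3 * 0) ^ 2 + 0 ^ 2 : ℝ) = 1 := by norm_num
    rw [e] at h1
    refine h1.mono fun v hv => ?_
    have h2 := Pool.Agent.T2H30.CF.trace_beta h v 1
    simp only [pow_one] at h2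
    rw [h2] at hv
    have e2 : (qq v.1 : ℝ) * ∑ σ, Pool.Agent.T2H30.CF.xx α σ v - (Module.finrank ℚ E : ℝ) * (qq v.1 : ℝ) =
        (∑ σ, (0 + 1 * Pool.Agent.T2H30.CF.xx α σ v + 0 * Pool.Agent.T2H30.CF.xx α σ v ^ 2) -
          (0 + 1 + 2 * 0) * Module.finrank ℚ E) * (qq v.1 : ℝ) := by
      simp only [zero_add, one_mul, zero_mul, add_zero, mul_zero]
      ring
    rw [e2, abs_mul, abs_of_pos (hq v), ← mul_assoc] at hv
    exact le_of_mul_le_mul_right hv (hq v)
  · have h1 := Pool.Agent.T2H30.CF.mean_poly h 0 0 1 hε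
    have e : ((0 + 3 * 1) ^ 2 + 1 ^ 2 : ℝ) = 10 := by norm_num
    rw [e] at h1
    refine h1.mono fun v hv => ?_
    have h2 := Pool.Agent.T2H30.CF.trace_beta h v 2
    rw [h2] at hv
    have e2 : (qq v.1 : ℝ) ^ 2 * ∑ σ, Pool.Agent.T2H30.CF.xx α σ v ^ 2 -
        2 * ((Module.finrank ℚ E : ℝ) * (qq v.1 : ℝ) ^ 2) =
        (∑ σ, (0 + 0 * Pool.Agent.T2H30.CF.xx α σ v + 1 * Pool.Agent.T2H30.CF.xx α σ v ^ 2) -
          (0 + 0 + 2 * 1) * Module.finrank ℚ E) * (qq v.1 : ℝ) ^ 2 := by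
      simp only [zero_add, one_mul, zero_mul, mul_one]
      ring
    have h3 : (0 : ℝ) < (qq v.1 : ℝ) ^ 2 := pow_pos (hq v) 2
    rw [e2, abs_mul, abs_of_pos h3, ← mul_assoc] at hv
    exact le_of_mul_le_mul_right hv h3
  · have h1 := hrp (1 / 10 - (Real.sqrt 10 - 3) / 2) (by linarith)
    have h2 : UpperDensityLE (fun v : PL S => ((Real.sqrt 10 - 3) / 2 + (1 / 10 - (Real.sqrt 10 - 3) / 2)) *
        ((Module.finrank ℚ E : ℕ) * (qq v.1 : ℕ)) ≤
        ∑ σ : E →+* ℂ, max 0 (‖σ (T v)‖ ^ 2 - 4 * (qq v.1 : ℕ)))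
        (49 / (49 + (Module.finrank ℚ (core T D) : ℕ))) := by
      refine weaken h1 ?_
      have h3 : (0.01886 : ℝ) ≤ 1 / 10 - (Real.sqrt 10 - 3) / 2 := by linarith
      have h4 : (0.01886 : ℝ) ^ 2 ≤ (1 / 10 - (Real.sqrt 10 - 3) / 2) ^ 2 := pow_le_pow_left₀ (by norm_num) h3 2
      have h5 : (1 : ℝ) ≤ 49 * 58 * (1 / 10 - (Real.sqrt 10 - 3) / 2) ^ 2 := by
        refine le_trans ?_ (mul_le_mul_of_nonneg_left h4 (by norm_num))
        norm_num
      rw [div_le_div_iff₀ (by positivity) (by positivity)]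
      nlinarith
    refine (Pool.Agent.T2H30.DN.lower_of_upper h2).mono fun v hv => ?_
    rw [not_le] at hv
    have e : ((Real.sqrt 10 - 3) / 2 + (1 / 10 - (Real.sqrt 10 - 3) / 2)) *
        ((Module.finrank ℚ E : ℝ) * (qq v.1 : ℝ)) = (Module.finrank ℚ E : ℝ) * (qq v.1 : ℝ) / 10 := by ring
    rw [e] at hv
    exact hv

end Pool.Agent.Results.MP_4819b8_nt.MeansOverConjugates
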