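import Mathlib
import Pool.Agent.T2H30.CF.Norm2

/-!
# Weight two characters: the Hasse-Weil bounds for the norms at almost all primes

Let `K` be a number field and `θ` a nontrivial character of the Hecke algebra `𝕋_1(𝔫)`, which acts on
`H^d(Y_1(𝔫), ℂ)`, with values in the number field `E` of degree `n`. If `θ` comes from an abelian variety `A / K`, then
`#A(𝓞_K / v) = a_v²` with `a_v = N_{E/ℚ} (1 - θ(T_v) + θ(S_v) N v)`, and the Hasse-Weil bounds
`(√(N v) - 1)^{2n} ≤ |a_v| ≤ (√(N v) + 1)^{2n}` hold; but no abelian variety is known in general. Let `g` be the degree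
of the field generated by the numbers `θ(T_v)² / θ(S_v)` (the field fixed by the inner twists of `θ`; it is `E` if there
are none and `θ(S_v) = 1`). We show:

**Theorem.** The Hasse-Weil bounds for `a_v` hold for primes `v` of lower natural density at least `1 - 1 / (1 + 34 g)`.

So **the density of the primes which satisfy the Hasse-Weil bounds for the norms tends to `1`, as the Hecke field
grows**, while for one form, or for all the conjugates of `θ`, only the densities `34/35`, `1 - n/35` are known. More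
precisely, for `Y > 1` we have `(N v + 1 - Y √(N v))^n ≤ |a_v| ≤ (N v + 1 + Y √(N v))^n` for primes of lower density at
least `1 - 1 / (1 + g (Y² - 1)²)` (and a better bound if `Y² > 3`); for large `g` this is the Hasse-Weil bound with
`2 √(N v)` replaced by `(1 + ε) √(N v)`. Similarly, the Ramanujan-Petersson bound holds for the norms of the `θ(T_v)`,
`|N_{E/ℚ} θ(T_v)| ≤ (2 √(N v))^n`, for primes of density at least `1 - 1 / (1 + 34 g)`, and
`|N_{E/ℚ} θ(T_v)|² ≤ (X N v)^n`, `X > 1`, for primes of density at least `1 - 1 / (1 + g (X - 1)²)`.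

If `θ` is dihedral or not cuspidal, the Ramanujan-Petersson bound is known for all `v` (`θ` is nontrivial). Otherwise `θ`
and its conjugates have the properties listed in the structure `WeightTwo`, which are all known: `A²_σ` and `A⁴_σ` are
cuspidal (Gelbart-Jacquet, Kim, Kim-Shahidi; tetrahedral and octahedral forms have no weight two), `A²_σ ≅ A²_τ` iff
`π_σ` and `π_τ` are twists of each other (Ramakrishnan), iff `σ` and `τ` agree on the numbers `θ(T_v)² / θ(S_v)` (strong
multiplicity one); `A⁴_σ ≅ A⁴_τ` for other pairs happens for forms of icosahedral type only (Ramakrishnan), which have no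
weight two; the Rankin-Selberg `L`-functions have the stated poles and no zeros for `Re s ≥ 1` (Jacquet, Shalika,
Shahidi). The prime ideal theorem for `K` and the Wiener-Ikehara theorem are proved.

The proof: if a bound is violated at `v` then, by the inequality of the means, the mean over `σ` of
`x_σ(v) = |σ(θ(T_v))|² / N v` is at least `Y²` (minus `ε`, for the lower bound). By convexity, the mean of
`(X - 1) A²_σ + (X² - 3 X + 1) A⁴_σ`, where `A²_σ = x_σ - 1`, `A⁴_σ = x_σ² - 3 x_σ + 1`, is large, too. But these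
functions of `v` are pairwise uncorrelated for different `σ` (up to inner twists), and Cantelli's inequality gives the
result.
-/

set_option autoImplicit false

namespace Pool.Agent.Results.MP_4819b8_nt.NormsHasseWeil

open NumberField IsDedekindDomain Pool.Agent.TH861.GL3
open Pool.Agent.T2H30.DN (LowerDensityGE)
open Pool.Agent.T2H30.CF (WeightTwo core)

/-- **The Hasse-Weil bounds for the norms hold at almost all primes, if the Hecke field is large.** -/
theorem result {K E : Type} [Field K] [NumberField K] [Field E] [NumberField E]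
    {S : Finset (HeightOneSpectrum (𝓞 K))} {T D : PL S → E} {α : (E →+* ℂ) → PL S → Fin 2 → ℂ}
    (h : WeightTwo T D α) (n g : ℕ) (hn : n = Module.finrank ℚ E) (hg : g = Module.finrank ℚ (core T D))
    (N : PL S → ℕ) (hN : ∀ v, N v = Ideal.absNorm v.1.asIdeal)
    (a : PL S → ℚ) (ha : ∀ v, a v = Algebra.norm ℚ (1 - T v + D v * (N v : E))) :
    -- the Hasse-Weil bounds
    LowerDensityGE (fun v : PL S => (Real.sqrt (N v) - 1) ^ (2 * n) ≤ |(a v : ℝ)| ∧
      |(a v : ℝ)| ≤ (Real.sqrt (N v) + 1) ^ (2 * n)) (1 - 1 / (1 + 34 * g)) ∧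
    -- the general case
    (∀ Y : ℝ, 1 < Y → LowerDensityGE (fun v : PL S => (N v + 1 - Y * Real.sqrt (N v)) ^ n ≤ |(a v : ℝ)| ∧
      |(a v : ℝ)| ≤ (N v + 1 + Y * Real.sqrt (N v)) ^ n) (1 - 1 / (1 + g * (Y ^ 2 - 1) ^ 2))) ∧
    (∀ Y : ℝ, 1 < Y → 3 < Y ^ 2 →
      LowerDensityGE (fun v : PL S => (N v + 1 - Y * Real.sqrt (N v)) ^ n ≤ |(a v : ℝ)| ∧
        |(a v : ℝ)| ≤ (N v + 1 + Y * Real.sqrt (N v)) ^ n)
        (1 - 1 / (1 + g * ((Y ^ 2 - 1) ^ 2 + (Y ^ 4 - 3 * Y ^ 2 + 1) ^ 2)))) ∧
    -- the norms of the eigenvalues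
    LowerDensityGE (fun v : PL S => |((Algebra.norm ℚ (T v) : ℚ) : ℝ)| ≤ (2 * Real.sqrt (N v)) ^ n)
      (1 - 1 / (1 + 34 * g)) ∧
    (∀ X : ℝ, 1 < X → LowerDensityGE (fun v : PL S => ((Algebra.norm ℚ (T v) : ℚ) : ℝ) ^ 2 ≤ (X * N v) ^ n)
      (1 - 1 / (1 + g * (X - 1) ^ 2))) := by
  obtain rfl : N = fun v => qq v.1 := funext hN
  obtain rfl : a = fun v => Algebra.norm ℚ (1 - T v + D v * (qq v.1 : E)) := funext ha
  subst hn hg
  simp_rw [mul_comm (D _) (_ : E)]
  have h2 : ∀ Y : ℝ, 1 < Y → 3 < Y ^ 2 →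
      LowerDensityGE (fun v : PL S => ((qq v.1 : ℝ) + 1 - Y * Real.sqrt (qq v.1)) ^ Module.finrank ℚ E ≤
          |((Algebra.norm ℚ (1 - T v + (qq v.1 : E) * D v) : ℚ) : ℝ)| ∧
        |((Algebra.norm ℚ (1 - T v + (qq v.1 : E) * D v) : ℚ) : ℝ)| ≤
          ((qq v.1 : ℝ) + 1 + Y * Real.sqrt (qq v.1)) ^ Module.finrank ℚ E)
        (1 - 1 / (1 + (Module.finrank ℚ (core T D) : ℕ) * ((Y ^ 2 - 1) ^ 2 + (Y ^ 4 - 3 * Y ^ 2 + 1) ^ 2))) := by
    intro Y hY hY3
    have := Pool.Agent.T2H30.CF.hw_two h hY hY3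
    rwa [← pow_mul] at this
  refine ⟨?_, fun Y hY => Pool.Agent.T2H30.CF.hw_one h hY, h2, ?_, fun X hX => Pool.Agent.T2H30.CF.norm_T_one h hX⟩
  · have h3 := h2 2 (by norm_num) (by norm_num)
    have e : (1 - 1 / (1 + (Module.finrank ℚ (core T D) : ℕ) * ((2 ^ 2 - 1) ^ 2 + (2 ^ 4 - 3 * 2 ^ 2 + 1) ^ 2)) : ℝ) =
        1 - 1 / (1 + 34 * (Module.finrank ℚ (core T D) : ℕ)) := by
      norm_num
      ring
    rw [e] at h3
    refine h3.mono fun v hv => ?_
    have h4 : Real.sqrt (qq v.1) * Real.sqrt (qq v.1) = (qq v.1 : ℝ) := Real.mul_self_sqrt (Nat.cast_nonneg _)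
    have e1 : (Real.sqrt (qq v.1) - 1) ^ 2 = (qq v.1 : ℝ) + 1 - 2 * Real.sqrt (qq v.1) := by
      nlinarith
    have e2 : (Real.sqrt (qq v.1) + 1) ^ 2 = (qq v.1 : ℝ) + 1 + 2 * Real.sqrt (qq v.1) := by
      nlinarith
    rw [pow_mul, pow_mul, e1, e2]
    exact hv
  · have h3 := Pool.Agent.T2H30.CF.norm_T_two h (X := 4) (by norm_num)
    have e : (1 - 1 / (1 + (Module.finrank ℚ (core T D) : ℕ) * ((4 - 1) ^ 2 + (4 ^ 2 - 3 * 4 + 1) ^ 2)) : ℝ) =
        1 - 1 / (1 + 34 * (Module.finrank ℚ (core T D) : ℕ)) := by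
      norm_num
      ring
    rw [e] at h3
    refine h3.mono fun v hv => ?_
    refine abs_le_of_sq_le_sq' ?_ (by positivity) |> fun h => abs_le.2 h
    rw [← pow_mul, mul_comm (Module.finrank ℚ E) 2, pow_mul, mul_pow, Real.sq_sqrt (Nat.cast_nonneg _)]
    norm_num
    exact hv

end Pool.Agent.Results.MP_4819b8_nt.NormsHasseWeil
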